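import Pool.Agent.LT.Final

namespace Pool.Agent.Results.MP_271752_gt.SoficAmenableNormal

open Pool.Agent.LT

/-- Let `G` be a sofic group with an infinite amenable normal subgroup `N`, and let `C` be a finite
resolution of the trivial module `ℤ` by finitely generated free `ℤG`-modules (for instance the
cellular chain complex of the universal covering of a finite aspherical CW complex with
fundamental group `G`). Let `c p` be the differentials of the associated Hilbert chain complex
`ℓ²(G)^(n p)` and `d p` their adjoints. Then all Laplacians are injective (all `L²`-Betti numbers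
vanish), all differentials and all Laplacians are of determinant class, and the `L²`-torsion
`-1/2 ∑ (-1)^p p log det (Δ_p)` vanishes. -/
theorem result {G : Type} [Group G] (hG : IsSofic G) (N : Subgroup G) [N.Normal] [Infinite N]
    (hN : IsAmenable N) (C : FinRes G) :
    ∃ (c : ∀ p, Op G (C.n (p + 1)) (C.n p)) (d : ∀ p, Op G (C.n p) (C.n (p + 1))),
      (∀ p, IsRop' (C.D p) (c p)) ∧ (∀ p, IsAdj (d p) (c p)) ∧
      (∀ p, Function.Injective (lapF c d p)) ∧
      (∀ p, ∃ x, HasLogDetF (fun v => (d p).app ((c p).app v)) x) ∧
      ∃ l : ℕ → ℝ, (∀ p, HasLogDetF (lapF c d p) (l p)) ∧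
        -(1 / 2 : ℝ) * ∑ p ∈ Finset.range (C.d + 1), (-1 : ℝ) ^ p * p * l p = 0 :=
  lt_final hG N hN C

end Pool.Agent.Results.MP_271752_gt.SoficAmenableNormal
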