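import Pool.Agent.HGR.FinB

namespace Pool.Agent.Results.MP_271752_gt.TorsionApprox

open Pool.Agent.LT Pool.Agent.HGR

/-- Let `C` be a finite free resolution of the trivial module `ℤ` whose dual `C'` is also a
resolution of `ℤ` (for instance the cellular chain complex of the universal covering of a closed
aspherical orientable manifold `M` with fundamental group `G`), and let `N` be an infinite amenable
normal subgroup of `G`.
For every `ε > 0` there are a finite set `F ⊆ G ∖ {1}` and `δ > 0` such that for every finite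
`G`-set `V` in which at most `δ |V|` points are fixed by some element of `F` all regulators
`R_p(V) = covol (cycles) / covol (saturated boundaries)` and the combinatorial torsion `rhoV C V`
(the torsion of the finite covering if `V = G ⧸ Γ`) satisfy `|log R_p(V)| ≤ ε |V|`,
`|rhoV C V| ≤ ε |V|`.
Along every Farber sequence of finite `G`-sets (for instance a residual chain of finite coverings
`M_i`) the normalized torsions `rhoV C (V i) / |V i|` tend to zero, and this is the `L²`-torsion
`-1/2 ∑ (-1)^p p log det (Δ_p)` of `C`: the approximation conjecture for the `L²`-torsion. -/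
theorem result {G : Type} [Group G] (N : Subgroup G) [N.Normal] [Infinite N] (hN : IsAmenable N)
    (C C' : FinRes G) (D : Dual C C') :
    (∀ ε : ℝ, 0 < ε → ∃ (F : Finset G) (δ : ℝ), (1 : G) ∉ F ∧ 0 < δ ∧
      ∀ (V : Type) [Fintype V] [DecidableEq V] [MulAction G V], FewFix F δ V →
        (∀ p, p ≤ C.d → ∀ cz cb : ℝ, HasCovol (Cyc C V p) cz → HasCovol (Sat (Bdy C V p)) cb →
          |Real.log (cz / cb)| ≤ ε * Fintype.card V) ∧
        |rhoV C V| ≤ ε * Fintype.card V) ∧
    ∀ (V : ℕ → Type) [∀ i, Fintype (V i)] [∀ i, DecidableEq (V i)] [∀ i, MulAction G (V i)],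
      IsFarber G V →
      Filter.Tendsto (fun i => rhoV C (V i) / Fintype.card (V i)) Filter.atTop (nhds 0) ∧
      ∃ (c : ∀ p, Op G (C.n (p + 1)) (C.n p)) (d : ∀ p, Op G (C.n p) (C.n (p + 1)))
        (l : ℕ → ℝ), (∀ p, IsRop' (C.D p) (c p)) ∧ (∀ p, IsAdj (d p) (c p)) ∧
        (∀ p, Function.Injective (lapF c d p)) ∧ (∀ p, HasLogDetF (lapF c d p) (l p)) ∧
        Filter.Tendsto (fun i => rhoV C (V i) / Fintype.card (V i)) Filter.atTop
          (nhds (-(1 / 2 : ℝ) * ∑ p ∈ Finset.range (C.d + 1), (-1 : ℝ) ^ p * p * l p)) :=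
  fin_B N hN C C' D

end Pool.Agent.Results.MP_271752_gt.TorsionApprox
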