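import Pool.Agent.HGR.FinA

namespace Pool.Agent.Results.MP_271752_gt.TorsionGrowth

open Pool.Agent.LT Pool.Agent.HGR

/-- Let `C` be a finite resolution of the trivial module `ℤ` by finitely generated free `ℤG`-modules
(for instance the cellular chain complex of the universal covering of a closed aspherical manifold
with fundamental group `G`), and let `N` be an infinite amenable normal subgroup of `G` (no other
condition on `G` or `N`).
For every `ε > 0` there are a finite set `F ⊆ G ∖ {1}` and `δ > 0` such that for every finite
`G`-set `V` in which at most `δ |V|` points are fixed by some element of `F` (for `V = G ⧸ Γ` the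
complex `C(V)` is the cellular chain complex of the finite covering with the group `Γ`) and all `p`
the integral homology group `H_p(V)` is generated by at most `ε |V|` elements and the logarithm of
the order of its torsion subgroup is at most `ε |V|`.
In particular, along every Farber sequence of finite `G`-sets (for instance a residual chain) the
torsion growth vanishes in all degrees, and the minimal number of generators of `H_p` (hence the
Betti number) grows sublinearly. -/
theorem result {G : Type} [Group G] (N : Subgroup G) [N.Normal] [Infinite N]
    (hN : IsAmenable N) (C : FinRes G) :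
    (∀ ε : ℝ, 0 < ε → ∃ (F : Finset G) (δ : ℝ), (1 : G) ∉ F ∧ 0 < δ ∧
      ∀ (V : Type) [Fintype V] [DecidableEq V] [MulAction G V], FewFix F δ V → ∀ p,
        (∃ k : ℕ, GenBy C V p k ∧ (k : ℝ) ≤ ε * Fintype.card V) ∧
        0 < torsOrd C V p ∧ Real.log (torsOrd C V p) ≤ ε * Fintype.card V) ∧
    ∀ (V : ℕ → Type) [∀ i, Fintype (V i)] [∀ i, DecidableEq (V i)] [∀ i, MulAction G (V i)],
      IsFarber G V → ∀ p,
        Filter.Tendsto (fun i => Real.log (torsOrd C (V i) p) / Fintype.card (V i))
          Filter.atTop (nhds 0) ∧
        Filter.Tendsto (fun i => (genNum C (V i) p : ℝ) / Fintype.card (V i))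
          Filter.atTop (nhds 0) :=
  fin_A N hN C

end Pool.Agent.Results.MP_271752_gt.TorsionGrowth
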